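import Mathlib
import Pool.Agent.Lib.MP_1ce9e9_gt.Rings

set_option autoImplicit false

/-!
# The fixed set has exactly 24 points
-/

namespace Pool.Agent.Lib.MP_1ce9e9_gt

/-- rational sign -/
def sg (b : Bool) : ℚ := if b then 1 else -1

/-- the coordinates of the 24 points -/
def gg : Bool × Bool × Fin 8 → ℚ × ℚ
  | (s, _, 0) => (sg s * (11 / 10), 0)
  | (s, _, 1) => (0, sg s * (11 / 10))
  | (s, _, 2) => (sg s * (9 / 10), 0)
  | (s, _, 3) => (0, sg s * (9 / 10))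
  | (s, t, 4) => (2 * sg s, sg t * (1 / 2))
  | (s, t, 5) => (2 * sg s, sg t * (3 / 2))
  | (s, t, 6) => (sg t * (1 / 2), 2 * sg s)
  | (s, t, 7) => (sg t * (3 / 2), 2 * sg s)

/-- rational points as complex numbers -/
def toC (p : ℚ × ℚ) : ℂ := ⟨p.1, p.2⟩

lemma toC_inj : Function.Injective toC := by
  rintro ⟨a, b⟩ ⟨c, d⟩ h
  have h1 := congrArg Complex.re h
  have h2 := congrArg Complex.im h
  simp only [toC, Rat.cast_inj] at h1 h2
  rw [h1, h2]

lemma card_gg : (Finset.univ.image gg).card = 24 := by decide +kernel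

lemma sg_sq (b : Bool) : ((sg b : ℚ) : ℝ) ^ 2 = 1 := by
  cases b <;> simp [sg]

lemma exists_sg {σ : ℝ} (h : σ ^ 2 = 1) : ∃ b : Bool, ((sg b : ℚ) : ℝ) = σ := by
  rcases sign_cases h with rfl | rfl
  · exact ⟨true, by simp [sg]⟩
  · exact ⟨false, by simp [sg]⟩

lemma SS_eq : SS = Set.range (toC ∘ gg) := by
  ext z
  constructor
  · rintro ⟨σ, τ, hσ, hτ, (rfl | rfl) | (rfl | rfl) | ⟨q, rfl | rfl, rfl | rfl⟩⟩ <;>
      obtain ⟨s, rfl⟩ := exists_sg hσ <;> obtain ⟨t, rfl⟩ := exists_sg hτ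
    · exact ⟨(s, t, 0), by simp [toC, gg]⟩
    · exact ⟨(s, t, 1), by simp [toC, gg]⟩
    · exact ⟨(s, t, 2), by simp [toC, gg]⟩
    · exact ⟨(s, t, 3), by simp [toC, gg]⟩
    · exact ⟨(s, t, 4), by simp [toC, gg]⟩
    · exact ⟨(s, t, 6), by simp [toC, gg]⟩
    · exact ⟨(s, t, 5), by simp [toC, gg]⟩
    · exact ⟨(s, t, 7), by simp [toC, gg]⟩
  · rintro ⟨⟨s, t, i⟩, rfl⟩
    refine ⟨sg s, sg t, sg_sq s, sg_sq t, ?_⟩
    fin_cases i
    · exact Or.inl (Or.inl (by simp [toC, gg]))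
    · exact Or.inl (Or.inr (by simp [toC, gg]))
    · exact Or.inr (Or.inl (Or.inl (by simp [toC, gg])))
    · exact Or.inr (Or.inl (Or.inr (by simp [toC, gg])))
    · exact Or.inr (Or.inr ⟨1 / 2, Or.inl rfl, Or.inl (by simp [toC, gg])⟩)
    · exact Or.inr (Or.inr ⟨3 / 2, Or.inr rfl, Or.inl (by simp [toC, gg])⟩)
    · exact Or.inr (Or.inr ⟨1 / 2, Or.inl rfl, Or.inr (by simp [toC, gg])⟩)
    · exact Or.inr (Or.inr ⟨3 / 2, Or.inr rfl, Or.inr (by simp [toC, gg])⟩)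

lemma card_SS : SS_finite.toFinset.card = 24 := by
  have h1 : SS_finite.toFinset = (Finset.univ.image gg).image toC := by
    ext z
    rw [SS_finite.mem_toFinset, SS_eq]
    simp only [Set.mem_range, Function.comp, Finset.mem_image, Finset.mem_univ, true_and]
    constructor
    · rintro ⟨y, rfl⟩
      exact ⟨gg y, ⟨y, rfl⟩, rfl⟩
    · rintro ⟨_, ⟨y, rfl⟩, rfl⟩
      exact ⟨y, rfl⟩
  rw [h1, Finset.card_image_of_injective _ toC_inj, card_gg]

end Pool.Agent.Lib.MP_1ce9e9_gt
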