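import Mathlib
import Pool.Agent.Lib.MP_1ce9e9_gt.Subdivide

set_option autoImplicit false

/-!
# Geodesic nets, and connectedness of the subdivision
-/

namespace Pool.Agent.Lib.MP_1ce9e9_gt

/-- The imbalance vector of `G` at `v`: the sum of the unit vectors along the edges at `v`. -/
noncomputable def Imb (G : SimpleGraph ℂ) (v : ℂ) : ℂ :=
  ∑ᶠ w ∈ G.neighborSet v, (w - v) / ((‖w - v‖ : ℝ) : ℂ)

/-- `G` (edges are straight segments) is a geodesic net with vertex set `V`: the edges join points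
of `V`, two different edges meet only at a common endpoint, and no vertex lies in the interior of
an edge. -/
structure GeodesicNet (V : Finset ℂ) (G : SimpleGraph ℂ) : Prop where
  endpoints : ∀ a b : ℂ, G.Adj a b → a ∈ V ∧ b ∈ V
  meet : ∀ a b c d : ℂ, G.Adj a b → G.Adj c d → s(a, b) ≠ s(c, d) →
    ∀ x ∈ segment ℝ a b ∩ segment ℝ c d, (x = a ∨ x = b) ∧ (x = c ∨ x = d)
  interior : ∀ a b v : ℂ, G.Adj a b → v ∈ V → v ∈ segment ℝ a b → v = a ∨ v = b

/-- A balanced vertex has at least three edges and imbalance zero. -/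
def Balanced (G : SimpleGraph ℂ) (v : ℂ) : Prop :=
  3 ≤ (G.neighborSet v).ncard ∧ Imb G v = 0

variable {H : SimpleGraph ℂ}

lemma reach_seg (hfin : (vset H).Finite) {a b : ℂ} (hab : H.Adj a b) (n : ℕ) :
    ∀ z : ℂ, z ∈ vset H → z ∈ segment ℝ a b →
      {u | u ∈ vset H ∧ u ∈ segment ℝ z b}.ncard ≤ n → (subG H).Reachable z b := by
  induction n with
  | zero =>
    intro z hz _ hn
    exfalso
    have hf : {u | u ∈ vset H ∧ u ∈ segment ℝ z b}.Finite := hfin.subset (fun u hu => hu.1)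
    have h1 : z ∈ {u | u ∈ vset H ∧ u ∈ segment ℝ z b} := ⟨hz, left_mem_segment _ _ _⟩
    have h2 := (Set.ncard_pos hf).2 ⟨z, h1⟩
    omega
  | succ n ih =>
    intro z hz hzs hn
    by_cases hzb : z = b
    · rw [hzb]
    · have hp : (a, b) ∈ darts H z := ⟨hab, hzs, fun h => hzb h.symm⟩
      obtain ⟨w, hw1, hw2⟩ := exists_nearest hfin hz hp
      simp only at hw1
      refine hw2.reachable.trans (ih w hw2.2.2.1 ?_ ?_)
      · exact segment_sub hzs (right_mem_segment _ _ _) hw1
      · have hf : {u | u ∈ vset H ∧ u ∈ segment ℝ z b}.Finite := hfin.subset (fun u hu => hu.1)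
        have hlt : {u | u ∈ vset H ∧ u ∈ segment ℝ w b} ⊂ {u | u ∈ vset H ∧ u ∈ segment ℝ z b} := by
          refine ⟨?_, ?_⟩
          · rintro u ⟨h1, h2⟩
            exact ⟨h1, segment_sub hw1 (right_mem_segment _ _ _) h2⟩
          · intro hsub
            have h3 : z ∈ {u | u ∈ vset H ∧ u ∈ segment ℝ w b} :=
              hsub ⟨hz, left_mem_segment _ _ _⟩
            have h4 := h3.2
            obtain ⟨t, ht0, ht1, rfl⟩ := exists_par hw1
            have hzb' : z ≠ b := hzb
            have h5 : par z b 0 ∈ segment ℝ (par z b t) (par z b 1) := by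
              rw [par_zero, par_one]; exact h4
            rw [par_mem hzb', Set.uIcc_of_le ht1] at h5
            have h6 : t = 0 := le_antisymm h5.1 ht0
            apply hw2.1
            rw [h6, par_zero]
        have := Set.ncard_lt_ncard hlt hf
        omega

/-- every vertex on the edge `a b` is joined to `b` in the subdivision -/
lemma reach_end (hfin : (vset H).Finite) {a b z : ℂ} (hab : H.Adj a b) (hz : z ∈ vset H)
    (hzs : z ∈ segment ℝ a b) : (subG H).Reachable z b :=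
  reach_seg hfin hab _ z hz hzs le_rfl

lemma reach_of_reach (hfin : (vset H).Finite) {a b : ℂ} (h : H.Reachable a b) :
    (subG H).Reachable a b := by
  obtain ⟨p⟩ := h
  induction p with
  | nil => exact SimpleGraph.Reachable.refl _
  | cons hadj p ih =>
    exact (reach_end hfin hadj (vset_of_adj hadj) (left_mem_segment _ _ _)).trans ih

/-- From a connected straight-line drawing without overlaps to a connected geodesic net. -/
theorem exists_net_conn (H : SimpleGraph ℂ) (hfin : {p : ℂ × ℂ | H.Adj p.1 p.2}.Finite)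
    (hov : NoOverlap H) (S : Finset ℂ) (hSv : ∀ v ∈ S, ∃ w, H.Adj v w)
    (hS : ∀ v ∈ S, ∑ᶠ w ∈ H.neighborSet v, dir v w ≠ 0)
    (hB : ∀ v, (∃ w, H.Adj v w) → v ∉ S → 3 ≤ (H.neighborSet v).ncard ∧
      ∑ᶠ w ∈ H.neighborSet v, dir v w = 0) (N : ℕ)
    (hN : N < Set.ncard {v | (∃ w, H.Adj v w) ∧ v ∉ S}) (o : ℂ)
    (hconn : ∀ v, (∃ w, H.Adj v w) → H.Reachable v o) :
    ∃ (V : Finset ℂ) (G : SimpleGraph ℂ), GeodesicNet V G ∧
      (∀ v ∈ V, ∀ w ∈ V, G.Reachable v w) ∧ (∀ v, v ∈ S ↔ v ∈ V ∧ ¬ Balanced G v) ∧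
      (∀ v ∈ S, Imb G v ≠ 0) ∧ N < {v | v ∈ V ∧ Balanced G v}.ncard := by
  have hv := vset_finite hfin hov
  have himb : ∀ v ∈ vset H, Imb (subG H) v = ∑ᶠ w ∈ H.neighborSet v, dir v w :=
    fun v hvv => finsum_subG hfin hov hvv
  have hbal : ∀ v ∈ vset H, v ∉ S → Balanced (subG H) v := by
    intro v hvv hvS
    by_cases h : ∃ w, H.Adj v w
    · obtain ⟨h1, h2⟩ := hB v h hvS
      refine ⟨h1.trans (ncard_le_subG hfin hov hvv), ?_⟩
      rw [himb v hvv, h2]
    · refine ⟨three_le_subG hfin hov hvv h, ?_⟩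
      rw [himb v hvv]
      have : H.neighborSet v = ∅ := by
        ext w
        simp only [SimpleGraph.mem_neighborSet, Set.mem_empty_iff_false, iff_false]
        exact fun hw => h ⟨w, hw⟩
      rw [this, finsum_mem_empty]
  have hSvs : ∀ v ∈ S, v ∈ vset H := fun v hvS => Or.inl (hSv v hvS)
  have hreach : ∀ v ∈ vset H, (subG H).Reachable v o := by
    intro v hvv
    rcases hvv with h | ⟨a, b, c, d, hab, hcd, hs, hva, hvc⟩
    · exact reach_of_reach hv (hconn v h)
    · exact (reach_end hv hab (Or.inr ⟨a, b, c, d, hab, hcd, hs, hva, hvc⟩) hva).trans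
        (reach_of_reach hv (hconn b ⟨a, hab.symm⟩))
  refine ⟨hv.toFinset, subG H, ⟨?_, ?_, ?_⟩, ?_, ?_, ?_, ?_⟩
  · rintro a b ⟨-, h1, h2, -⟩
    exact ⟨hv.mem_toFinset.2 h1, hv.mem_toFinset.2 h2⟩
  · rintro a b c d h1 h2 h3 x ⟨h4, h5⟩
    refine subG_noncross h1 h2 ?_ x h4 h5
    intro h6
    apply h3
    rw [Sym2.eq_iff]
    exact h6
  · intro a b v h1 h2 h3
    exact subG_no_interior h1 (hv.mem_toFinset.1 h2) h3
  · intro v hvV w hwV
    exact (hreach v (hv.mem_toFinset.1 hvV)).trans (hreach w (hv.mem_toFinset.1 hwV)).symm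
  · intro v
    rw [hv.mem_toFinset]
    constructor
    · intro hvS
      refine ⟨hSvs v hvS, fun hcon => ?_⟩
      have h1 := himb v (hSvs v hvS)
      exact hS v hvS (h1 ▸ hcon.2)
    · rintro ⟨hvV, hcon⟩
      by_contra hvS
      exact hcon (hbal v hvV hvS)
  · intro v hvS
    rw [himb v (hSvs v hvS)]
    exact hS v hvS
  · refine hN.trans_le (Set.ncard_le_ncard ?_ ?_)
    · rintro v ⟨h1, h2⟩
      exact ⟨hv.mem_toFinset.2 (Or.inl h1), hbal v (Or.inl h1) h2⟩
    · exact (hv.toFinset.finite_toSet).subset (fun v hv => hv.1)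

end Pool.Agent.Lib.MP_1ce9e9_gt
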