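import Mathlib
import Pool.Agent.Lib.MP_1ce9e9_gt.Rings
import Pool.Agent.Lib.MP_1ce9e9_gt.H50.Net
import Pool.Agent.Lib.MP_1ce9e9_gt.H50.Card

set_option autoImplicit false

/-!
# Additional unbalanced end points, and connectedness of the drawing
-/

namespace Pool.Agent.Lib.MP_1ce9e9_gt

variable {N : ℕ} {r : ℕ → ℝ}

/-- the corner of the frame which receives the additional edges -/
noncomputable def hub : ℂ := ⟨2, 3 / 2⟩

/-- the free end points of the additional edges -/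
noncomputable def pt (j : ℕ) : ℂ := ⟨2 + 1 / ((j : ℝ) + 1), -(1 / 2)⟩

lemma pt_re_gt (j : ℕ) : 2 < (pt j).re := by
  have : (0 : ℝ) < 1 / ((j : ℝ) + 1) := by positivity
  show 2 < 2 + 1 / ((j : ℝ) + 1)
  linarith

lemma pt_re_le (j : ℕ) : (pt j).re ≤ 3 := by
  have h1 : 1 / ((j : ℝ) + 1) ≤ 1 := by
    rw [div_le_one (by positivity)]
    have : (0 : ℝ) ≤ (j : ℝ) := by positivity
    linarith
  show 2 + 1 / ((j : ℝ) + 1) ≤ 3
  linarith

lemma pt_inj : Function.Injective pt := by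
  intro i j hij
  have h1 := (Complex.ext_iff.1 hij).1
  simp only [pt] at h1
  have h2 : 1 / ((i : ℝ) + 1) = 1 / ((j : ℝ) + 1) := by linarith
  have h3 : (0 : ℝ) < (i : ℝ) + 1 := by positivity
  have h4 : (0 : ℝ) < (j : ℝ) + 1 := by positivity
  rw [div_eq_div_iff h3.ne' h4.ne'] at h2
  have h5 : (i : ℝ) = (j : ℝ) := by linarith
  exact_mod_cast h5

lemma XX_le (h : Rad N r) {x : ℝ} (hx : x ∈ XX N r) : x ≤ 2 := by
  obtain ⟨y, hy, hxy⟩ := hx
  have h1 : 0 ≤ y ∧ y ≤ 2 := by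
    rcases hy with rfl | rfl | rfl | rfl | ⟨k, hk, rfl⟩
    · norm_num
    · norm_num
    · norm_num
    · norm_num
    · have h1 := h.lb k
      have h2 := h.ub k
      constructor <;> linarith
  rcases hxy with rfl | rfl <;> linarith [h1.1, h1.2]

lemma ring_re_le (h : Rad N r) {z w : ℂ} (hzw : (ringG h).Adj z w) : z.re ≤ 2 ∧ w.re ≤ 2 := by
  obtain ⟨α, β, h1 | h1⟩ := hzw
  · exact ⟨XX_le h h1.mem_XX.1.1, XX_le h h1.mem_XX.2.1⟩
  · exact ⟨XX_le h h1.mem_XX.2.1, XX_le h h1.mem_XX.1.1⟩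

lemma seg_re_le {a b x : ℂ} (ha : a.re ≤ 2) (hb : b.re ≤ 2) (hx : x ∈ segment ℝ a b) :
    x.re ≤ 2 := by
  obtain ⟨s, t, hs, ht, hst, rfl⟩ := hx
  simp only [Complex.add_re, Complex.real_smul, Complex.mul_re,
    Complex.ofReal_re, Complex.ofReal_im, zero_mul, sub_zero]
  nlinarith

/-- the additional edges -/
def StarAdj (m : ℕ) (z w : ℂ) : Prop :=
  (z = hub ∧ ∃ j < m, w = pt j) ∨ (w = hub ∧ ∃ j < m, z = pt j)

lemma StarAdj.symm {m : ℕ} {z w : ℂ} (h : StarAdj m z w) : StarAdj m w z := Or.symm h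

lemma hub_ne_pt (j : ℕ) : hub ≠ pt j := by
  intro h
  have h1 := pt_re_gt j
  rw [← h] at h1
  exact lt_irrefl (2 : ℝ) h1

lemma star_seg {m : ℕ} {a b : ℂ} (h : StarAdj m a b) : ∃ j < m,
    ((a = hub ∧ b = pt j) ∨ (a = pt j ∧ b = hub)) ∧
    ∀ x ∈ segment ℝ a b, ∃ t : ℝ, 0 ≤ t ∧ x.re = 2 + t / ((j : ℝ) + 1) ∧ x.im = 3 / 2 - 2 * t := by
  have key : ∀ j : ℕ, ∀ x ∈ segment ℝ hub (pt j), ∃ t : ℝ, 0 ≤ t ∧
      x.re = 2 + t / ((j : ℝ) + 1) ∧ x.im = 3 / 2 - 2 * t := by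
    rintro j x ⟨s, t, hs, ht, hst, rfl⟩
    refine ⟨t, ht, ?_, ?_⟩
    · simp only [Complex.add_re, Complex.real_smul, Complex.mul_re,
        Complex.ofReal_re, Complex.ofReal_im, zero_mul, sub_zero, hub, pt]
      have : s = 1 - t := by linarith
      rw [this]
      ring
    · simp only [Complex.add_im, Complex.real_smul, Complex.mul_im,
        Complex.ofReal_re, Complex.ofReal_im, zero_mul, add_zero, hub, pt]
      have : s = 1 - t := by linarith
      rw [this]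
      ring
  rcases h with ⟨rfl, j, hj, rfl⟩ | ⟨rfl, j, hj, rfl⟩
  · exact ⟨j, hj, Or.inl ⟨rfl, rfl⟩, key j⟩
  · refine ⟨j, hj, Or.inr ⟨rfl, rfl⟩, ?_⟩
    intro x hx
    rw [segment_symm] at hx
    exact key j x hx

/-- the drawing with the additional edges -/
def starG (h : Rad N r) (m : ℕ) : SimpleGraph ℂ where
  Adj z w := (ringG h).Adj z w ∨ StarAdj m z w
  symm := ⟨by
    rintro z w (h1 | h1)
    · exact Or.inl h1.symm
    · exact Or.inr h1.symm⟩
  loopless := ⟨by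
    rintro z (h1 | ⟨h1, j, hj, h2⟩ | ⟨h1, j, hj, h2⟩)
    · exact (ringG h).irrefl h1
    · exact hub_ne_pt j (h1.symm.trans h2)
    · exact hub_ne_pt j (h1.symm.trans h2)⟩

lemma ringG_le_starG (h : Rad N r) (m : ℕ) : ringG h ≤ starG h m := fun _ _ h1 => Or.inl h1

lemma starG_finite (h : Rad N r) (m : ℕ) : {p : ℂ × ℂ | (starG h m).Adj p.1 p.2}.Finite := by
  have h1 : ({hub} ∪ pt '' (Set.Iio m)).Finite :=
    (Set.finite_singleton _).union ((Set.finite_Iio m).image _)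
  refine ((ringG_finite h).union (h1.prod h1)).subset ?_
  rintro ⟨z, w⟩ (h2 | ⟨rfl, j, hj, rfl⟩ | ⟨rfl, j, hj, rfl⟩)
  · exact Or.inl h2
  · exact Or.inr ⟨Or.inl rfl, Or.inr ⟨j, hj, rfl⟩⟩
  · exact Or.inr ⟨Or.inr ⟨j, hj, rfl⟩, Or.inl rfl⟩

lemma hub_of_re {j : ℕ} {x : ℂ} {t : ℝ} (ht : 0 ≤ t) (h1 : x.re = 2 + t / ((j : ℝ) + 1))
    (h2 : x.im = 3 / 2 - 2 * t) (h3 : x.re ≤ 2) : x = hub := by
  have h4 : (0 : ℝ) < (j : ℝ) + 1 := by positivity
  have h5 : t / ((j : ℝ) + 1) ≤ 0 := by linarith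
  have h6 : t ≤ 0 := by
    by_contra h7
    have : 0 < t / ((j : ℝ) + 1) := div_pos (by linarith) h4
    linarith
  have h7 : t = 0 := le_antisymm h6 ht
  subst h7
  apply Complex.ext
  · rw [h1]; simp [hub]
  · rw [h2]; simp [hub]

lemma starG_noOverlap (h : Rad N r) (m : ℕ) : NoOverlap (starG h m) := by
  have mixed : ∀ a b c d : ℂ, (ringG h).Adj a b → StarAdj m c d → ∀ x y,
      x ∈ segment ℝ a b → x ∈ segment ℝ c d → y ∈ segment ℝ a b → y ∈ segment ℝ c d → x = y := by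
    intro a b c d h1 h2 x y hx1 hx2 hy1 hy2
    obtain ⟨j, -, -, h3⟩ := star_seg h2
    obtain ⟨ha, hb⟩ := ring_re_le h h1
    obtain ⟨t, t1, t2, t3⟩ := h3 x hx2
    obtain ⟨s, s1, s2, s3⟩ := h3 y hy2
    rw [hub_of_re t1 t2 t3 (seg_re_le ha hb hx1), hub_of_re s1 s2 s3 (seg_re_le ha hb hy1)]
  rintro a b c d (h1 | h1) (h2 | h2) hs x y hx1 hx2 hy1 hy2
  · exact ringG_noOverlap h a b c d h1 h2 hs x y hx1 hx2 hy1 hy2
  · exact mixed a b c d h1 h2 x y hx1 hx2 hy1 hy2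
  · exact mixed c d a b h2 h1 x y hx2 hx1 hy2 hy1
  · obtain ⟨j, -, e1, h3⟩ := star_seg h1
    obtain ⟨i, -, e2, h4⟩ := star_seg h2
    have hij : j ≠ i := by
      rintro rfl
      apply hs
      rcases e1 with ⟨rfl, rfl⟩ | ⟨rfl, rfl⟩ <;> rcases e2 with ⟨rfl, rfl⟩ | ⟨rfl, rfl⟩
      · exact Or.inl ⟨rfl, rfl⟩
      · exact Or.inr ⟨rfl, rfl⟩
      · exact Or.inr ⟨rfl, rfl⟩
      · exact Or.inl ⟨rfl, rfl⟩
    have main : ∀ z, z ∈ segment ℝ a b → z ∈ segment ℝ c d → z = hub := by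
      intro z hz1 hz2
      obtain ⟨t, t1, t2, t3⟩ := h3 z hz1
      obtain ⟨s, s1, s2, s3⟩ := h4 z hz2
      have e3 : s = t := by linarith
      subst e3
      have e4 : s / ((j : ℝ) + 1) = s / ((i : ℝ) + 1) := by linarith
      have p1 : (0 : ℝ) < (j : ℝ) + 1 := by positivity
      have p2 : (0 : ℝ) < (i : ℝ) + 1 := by positivity
      rw [div_eq_div_iff p1.ne' p2.ne'] at e4
      have e5 : s * ((i : ℝ) - (j : ℝ)) = 0 := by linarith
      have e6 : s = 0 := by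
        rcases mul_eq_zero.1 e5 with e6 | e6
        · exact e6
        · exfalso
          apply hij
          have : (j : ℝ) = (i : ℝ) := by linarith
          exact_mod_cast this
      subst e6
      exact hub_of_re t1 t2 t3 (by rw [t2]; simp)
    rw [main x hx1 hx2, main y hy1 hy2]

lemma starG_nbr_pt (h : Rad N r) {m j : ℕ} (hj : j < m) :
    (starG h m).neighborSet (pt j) = {hub} := by
  ext w
  rw [SimpleGraph.mem_neighborSet, Set.mem_singleton_iff]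
  constructor
  · rintro (h1 | ⟨h1, i, hi, h2⟩ | ⟨h1, i, hi, h2⟩)
    · exact absurd (ring_re_le h h1).1 (not_le.2 (pt_re_gt j))
    · exact absurd h1.symm (hub_ne_pt j)
    · exact h1
  · rintro rfl
    exact Or.inr (Or.inr ⟨rfl, j, hj, rfl⟩)

lemma starG_nbr_other (h : Rad N r) {m : ℕ} {z : ℂ} (hz : z ≠ hub) (hz' : ∀ j < m, z ≠ pt j) :
    (starG h m).neighborSet z = (ringG h).neighborSet z := by
  ext w
  rw [SimpleGraph.mem_neighborSet, SimpleGraph.mem_neighborSet]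
  constructor
  · rintro (h1 | ⟨h1, i, hi, h2⟩ | ⟨h1, i, hi, h2⟩)
    · exact h1
    · exact absurd h1 hz
    · exact absurd h2 (hz' i hi)
  · exact fun h1 => Or.inl h1

lemma SS_re_le {z : ℂ} (hz : z ∈ SS) : z.re ≤ 2 := by
  obtain ⟨σ, τ, hσ, hτ, (rfl | rfl) | (rfl | rfl) | ⟨q, rfl | rfl, rfl | rfl⟩⟩ := hz <;>
  rcases sign_cases hσ with rfl | rfl <;> rcases sign_cases hτ with rfl | rfl <;> norm_num

lemma hub_mem_SS : hub ∈ SS := by
  refine ⟨1, 1, by norm_num, by norm_num, Or.inr (Or.inr ⟨3 / 2, Or.inr rfl, Or.inl ?_⟩)⟩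
  simp [hub]

lemma pt_notMem_SS (j : ℕ) : pt j ∉ SS := fun h => not_le.2 (pt_re_gt j) (SS_re_le h)

/-- the fixed set: the 24 frame points and the `m` free end points -/
noncomputable def SM (m : ℕ) : Finset ℂ :=
  SS_finite.toFinset ∪ (Finset.range m).map ⟨pt, pt_inj⟩

lemma mem_SM {m : ℕ} {z : ℂ} : z ∈ SM m ↔ z ∈ SS ∨ ∃ j < m, z = pt j := by
  unfold SM
  rw [Finset.mem_union, SS_finite.mem_toFinset, Finset.mem_map]
  simp only [Finset.mem_range, Function.Embedding.coeFn_mk]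
  constructor
  · rintro (h | ⟨j, hj, rfl⟩)
    · exact Or.inl h
    · exact Or.inr ⟨j, hj, rfl⟩
  · rintro (h | ⟨j, hj, rfl⟩)
    · exact Or.inl h
    · exact Or.inr ⟨j, hj, rfl⟩

lemma card_SM (m : ℕ) : (SM m).card = 24 + m := by
  unfold SM
  rw [Finset.card_union_of_disjoint, card_SS, Finset.card_map, Finset.card_range]
  rw [Finset.disjoint_left]
  intro z hz hz'
  rw [SS_finite.mem_toFinset] at hz
  rw [Finset.mem_map] at hz'
  obtain ⟨j, -, rfl⟩ := hz'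
  exact pt_notMem_SS j hz

lemma starG_nbr_finite (h : Rad N r) (m : ℕ) (z : ℂ) :
    ((starG h m).neighborSet z).Finite := by
  refine ((starG_finite h m).image Prod.snd).subset ?_
  intro w hw
  exact ⟨(z, w), hw, rfl⟩

lemma dir_ne_zero {z w : ℂ} (h : z ≠ w) : dir z w ≠ 0 := by
  unfold dir
  have h1 : w - z ≠ 0 := sub_ne_zero.2 h.symm
  apply div_ne_zero h1
  rw [Ne, Complex.ofReal_eq_zero, norm_eq_zero]
  exact h1

lemma star_unbal (h : Rad N r) (hN : 1 ≤ N) {m : ℕ} {z : ℂ} (hz : z ∈ SM m) :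
    (∃ w, (starG h m).Adj z w) ∧ ∑ᶠ w ∈ (starG h m).neighborSet z, dir z w ≠ 0 := by
  rw [mem_SM] at hz
  rcases hz with hz | ⟨j, hj, rfl⟩
  · obtain ⟨⟨w, hw⟩, h2⟩ := unbal h hN hz
    refine ⟨⟨w, Or.inl hw⟩, ?_⟩
    by_cases hzh : z = hub
    · subst hzh
      apply finsum_ne_zero (starG_nbr_finite h m hub) ⟨w, Or.inl hw⟩
      intro w hw
      have hb : hub = (⟨2 * 1, 1 * (3 / 2)⟩ : ℂ) := by simp [hub]
      rcases hw with hw | ⟨-, j, hj, rfl⟩ | ⟨-, j, hj, h3⟩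
      · rw [hb] at hw
        obtain ⟨k, rfl⟩ := nbr_far h (by norm_num) (by norm_num) (Or.inr rfl) hw
        have h1 := h.ub k
        simp only [hub, one_mul, zero_mul, add_zero]
        linarith
      · have h1 := pt_re_le j
        have h3 : (pt j).im = -(1 / 2) := rfl
        rw [h3]
        simp only [hub]
        linarith
      · exact absurd h3 (hub_ne_pt j)
    · rw [starG_nbr_other h hzh]
      · exact h2
      · rintro j - rfl
        exact pt_notMem_SS j hz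
  · refine ⟨⟨hub, Or.inr (Or.inr ⟨rfl, j, hj, rfl⟩)⟩, ?_⟩
    rw [starG_nbr_pt h hj, finsum_mem_singleton]
    exact dir_ne_zero (hub_ne_pt j).symm

lemma ring_ne_hub (h : Rad N r) {k : ℕ} {σ : ℝ} :
    (⟨σ * r k, 0⟩ : ℂ) ≠ hub ∧ (⟨0, σ * r k⟩ : ℂ) ≠ hub := by
  constructor
  · intro he
    have := (Complex.ext_iff.1 he).2
    simp only [hub] at this
    norm_num at this
  · intro he
    have := (Complex.ext_iff.1 he).1
    simp only [hub] at this
    norm_num at this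

lemma ring_ne_pt (h : Rad N r) {k : ℕ} {σ : ℝ} (j : ℕ) :
    (⟨σ * r k, 0⟩ : ℂ) ≠ pt j ∧ (⟨0, σ * r k⟩ : ℂ) ≠ pt j := by
  constructor
  · intro he
    have := (Complex.ext_iff.1 he).2
    simp only [pt] at this
    norm_num at this
  · intro he
    have h1 := (Complex.ext_iff.1 he).1
    have h2 := pt_re_gt j
    rw [← h1] at h2
    simp only at h2
    linarith

lemma star_bal (h : Rad N r) {m : ℕ} {z : ℂ} (hz : ∃ w, (starG h m).Adj z w) (hzS : z ∉ SM m) :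
    3 ≤ ((starG h m).neighborSet z).ncard ∧
      ∑ᶠ w ∈ (starG h m).neighborSet z, dir z w = 0 := by
  rw [mem_SM] at hzS
  push Not at hzS
  obtain ⟨hzS, hzp⟩ := hzS
  have hzh : z ≠ hub := by
    rintro rfl
    exact hzS hub_mem_SS
  have hz2 : ∃ w, (ringG h).Adj z w := by
    obtain ⟨w, h1 | ⟨h1, j, hj, h2⟩ | ⟨h1, j, hj, h2⟩⟩ := hz
    · exact ⟨w, h1⟩
    · exact absurd h1 hzh
    · exact absurd h2 (hzp j hj)
  rw [starG_nbr_other h hzh hzp]
  rcases vertex_cases h hz2 with h2 | ⟨k, hk1, hkN, σ, hσ, rfl | rfl⟩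
  · exact absurd h2 hzS
  · exact ⟨three_le_h h hk1 hkN hσ, balanced_h h hk1 hkN hσ⟩
  · exact ⟨three_le_v h hk1 hkN hσ, balanced_v h hk1 hkN hσ⟩

/-! ### Connectedness -/

lemma adj_ZE (h : Rad N r) {k l : ℕ} (hk : k ≤ N + 1) (hl : l ≤ N + 1)
    (hkl : l = k + 1 ∨ k = l + 1) {σ τ : ℝ} (hσ : σ ^ 2 = 1) (hτ : τ ^ 2 = 1) :
    (ringG h).Adj ⟨σ * r k, 0⟩ ⟨0, τ * r l⟩ :=
  ⟨_, _, Or.inl (Or.inl ⟨σ, τ, hσ, hτ, k, l, hk, hl, hkl, rfl, rfl, rfl, rfl⟩)⟩

lemma reach_h1 (h : Rad N r) {k : ℕ} (hk : 1 ≤ k) (hk' : k ≤ N) :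
    (ringG h).Reachable ⟨1 * r k, 0⟩ hub := by
  apply SimpleGraph.Adj.reachable
  refine ⟨_, _, Or.inl (Or.inr (Or.inl ⟨1, 1, by norm_num, by norm_num, k, hk, hk', 3 / 2,
    Or.inr rfl, rfl, ?_, rfl, rfl⟩))⟩
  simp [hub]

lemma reach_v (h : Rad N r) (hN : 2 ≤ N) {k : ℕ} (hk : 1 ≤ k) (hk' : k ≤ N) {τ : ℝ}
    (hτ : τ ^ 2 = 1) : (ringG h).Reachable ⟨0, τ * r k⟩ hub := by
  rcases Nat.lt_or_ge k N with h1 | h1
  · exact ((adj_ZE h (k := k + 1) (l := k) (by omega) (by omega) (Or.inr rfl)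
      (by norm_num : (1 : ℝ) ^ 2 = 1) hτ).symm.reachable).trans (reach_h1 h (by omega) (by omega))
  · exact ((adj_ZE h (k := k - 1) (l := k) (by omega) (by omega) (Or.inl (by omega))
      (by norm_num : (1 : ℝ) ^ 2 = 1) hτ).symm.reachable).trans (reach_h1 h (by omega) (by omega))

lemma reach_h (h : Rad N r) (hN : 2 ≤ N) {k : ℕ} (hk : 1 ≤ k) (hk' : k ≤ N) {σ : ℝ}
    (hσ : σ ^ 2 = 1) : (ringG h).Reachable ⟨σ * r k, 0⟩ hub := by
  rcases Nat.lt_or_ge k N with h1 | h1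
  · exact ((adj_ZE h (k := k) (l := k + 1) (by omega) (by omega) (Or.inl rfl) hσ
      (by norm_num : (1 : ℝ) ^ 2 = 1)).reachable).trans
      (reach_v h hN (by omega) (by omega) (by norm_num))
  · exact ((adj_ZE h (k := k) (l := k - 1) (by omega) (by omega) (Or.inr (by omega)) hσ
      (by norm_num : (1 : ℝ) ^ 2 = 1)).reachable).trans
      (reach_v h hN (by omega) (by omega) (by norm_num))

lemma reach_ring (h : Rad N r) (hN : 2 ≤ N) {k : ℕ} (hk : k ≤ N + 1) {σ : ℝ}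
    (hσ : σ ^ 2 = 1) : (ringG h).Reachable ⟨σ * r k, 0⟩ hub ∧
      (ringG h).Reachable ⟨0, σ * r k⟩ hub := by
  have hp : (1 : ℝ) ^ 2 = 1 := by norm_num
  rcases Nat.eq_zero_or_pos k with h0 | h0
  · constructor
    · exact ((adj_ZE h (k := k) (l := 1) (by omega) (by omega) (Or.inl (by omega)) hσ
        hp).reachable).trans (reach_v h hN (by omega) (by omega) hp)
    · exact ((adj_ZE h (k := 1) (l := k) (by omega) (by omega) (Or.inr (by omega)) hp
        hσ).symm.reachable).trans (reach_h h hN (by omega) (by omega) hp)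
  · rcases Nat.lt_or_ge N k with h1 | h1
    · constructor
      · exact ((adj_ZE h (k := k) (l := N) (by omega) (by omega) (Or.inr (by omega)) hσ
          hp).reachable).trans (reach_v h hN (by omega) (by omega) hp)
      · exact ((adj_ZE h (k := N) (l := k) (by omega) (by omega) (Or.inl (by omega)) hp
          hσ).symm.reachable).trans (reach_h h hN (by omega) (by omega) hp)
    · exact ⟨reach_h h hN h0 h1 hσ, reach_v h hN h0 h1 hσ⟩

lemma reach_edge (h : Rad N r) (hN : 2 ≤ N) {z w : ℂ} {α β : ℝ} (he : Edge N r z w α β) :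
    (ringG h).Reachable z hub ∧ (ringG h).Reachable w hub := by
  have hadj : (ringG h).Adj z w := ⟨α, β, Or.inl he⟩
  have h1 : (ringG h).Reachable z hub := by
    rcases he with ⟨σ, τ, hσ, hτ, k, l, hk, hl, hkl, rfl, rfl, -, -⟩ |
      ⟨σ, τ, hσ, hτ, k, hk, hk', q, hq, rfl, rfl, -, -⟩ |
      ⟨σ, τ, hσ, hτ, k, hk, hk', q, hq, rfl, rfl, -, -⟩
    · exact (reach_ring h hN hk hσ).1
    · exact (reach_ring h hN (by omega) hσ).1
    · exact (reach_ring h hN (by omega) hσ).2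
  exact ⟨h1, hadj.symm.reachable.trans h1⟩

lemma star_reach (h : Rad N r) (hN : 2 ≤ N) {m : ℕ} {z : ℂ} (hz : ∃ w, (starG h m).Adj z w) :
    (starG h m).Reachable z hub := by
  obtain ⟨w, ⟨α, β, h1 | h1⟩ | ⟨rfl, j, hj, rfl⟩ | ⟨rfl, j, hj, rfl⟩⟩ := hz
  · exact (reach_edge h hN h1).1.mono (ringG_le_starG h m)
  · exact (reach_edge h hN h1).2.mono (ringG_le_starG h m)
  · exact SimpleGraph.Reachable.refl _
  · apply SimpleGraph.Adj.reachable
    exact Or.inr (Or.inr ⟨rfl, j, hj, rfl⟩)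

theorem main_star (m N : ℕ) : ∃ (V : Finset ℂ) (G : SimpleGraph ℂ), GeodesicNet V G ∧
    (∀ v ∈ V, ∀ w ∈ V, G.Reachable v w) ∧ (∀ v, v ∈ SM m ↔ v ∈ V ∧ ¬ Balanced G v) ∧
    (∀ v ∈ SM m, Imb G v ≠ 0) ∧ N < {v | v ∈ V ∧ Balanced G v}.ncard := by
  obtain ⟨r, h0, h1, hall, hanti, heq⟩ := exists_radii (N + 2)
  have h : Rad (N + 2) r := ⟨h0, h1, fun k => (hall k).1, fun k => (hall k).2, hanti, heq⟩
  refine exists_net_conn (starG h m) (starG_finite h m) (starG_noOverlap h m) (SM m)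
    (fun v hv => (star_unbal h (by omega) hv).1) (fun v hv => (star_unbal h (by omega) hv).2)
    (fun v hv hvS => star_bal h hv hvS) N ?_ hub (fun v hv => star_reach h (by omega) hv)
  have hsub : (fun k => (⟨1 * r k, 0⟩ : ℂ)) '' (Set.Icc 1 (N + 2)) ⊆
      {v | (∃ w, (starG h m).Adj v w) ∧ v ∉ SM m} := by
    rintro _ ⟨k, ⟨hk1, hkN⟩, rfl⟩
    refine ⟨?_, ?_⟩
    · have h3 := three_le_h h hk1 hkN (σ := 1) (by norm_num)
      have h4 : ((ringG h).neighborSet ⟨1 * r k, 0⟩).Nonempty := by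
        apply Set.nonempty_of_ncard_ne_zero
        omega
      obtain ⟨w, hw⟩ := h4
      exact ⟨w, Or.inl hw⟩
    · simp only [mem_SM, not_or, not_exists, not_and]
      refine ⟨ring_notMem_SS h hk1 hkN (by norm_num), ?_⟩
      intro j _
      exact (ring_ne_pt h (σ := 1) j).1
  have hfin : {v | (∃ w, (starG h m).Adj v w) ∧ v ∉ SM m}.Finite := by
    refine ((starG_finite h m).image Prod.fst).subset ?_
    rintro v ⟨⟨w, hw⟩, _⟩
    exact ⟨(v, w), hw, rfl⟩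
  have hinj : Set.InjOn (fun k => (⟨1 * r k, 0⟩ : ℂ)) (Set.Icc 1 (N + 2)) := by
    intro k hk l hl hkl
    have e1 := (Complex.ext_iff.1 hkl).1
    simp only [one_mul] at e1
    exact h.inj (by have := hk.2; omega) (by have := hl.2; omega) e1
  have h5 := Set.ncard_le_ncard hsub hfin
  rw [hinj.ncard_image] at h5
  have h6 : (Set.Icc 1 (N + 2)).ncard = N + 2 := by
    rw [← Finset.coe_Icc, Set.ncard_coe_finset, Nat.card_Icc, Nat.add_sub_cancel]
  omega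

/-- For every number `N₀ ≥ 24` there is a set of `N₀` points which is the set of unbalanced
vertices of connected geodesic nets with arbitrarily many balanced vertices. -/
theorem all_sizes (N₀ : ℕ) (hN₀ : 24 ≤ N₀) : ∃ S : Finset ℂ, S.card = N₀ ∧
    ∀ N : ℕ, ∃ (V : Finset ℂ) (G : SimpleGraph ℂ), GeodesicNet V G ∧
      (∀ v ∈ V, ∀ w ∈ V, G.Reachable v w) ∧ (∀ v, v ∈ S ↔ v ∈ V ∧ ¬ Balanced G v) ∧
      (∀ v ∈ S, Imb G v ≠ 0) ∧ N < {v | v ∈ V ∧ Balanced G v}.ncard :=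
  ⟨SM (N₀ - 24), by rw [card_SM]; omega, fun N => main_star (N₀ - 24) N⟩

end Pool.Agent.Lib.MP_1ce9e9_gt
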